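import Pool.Agent.Y859.SF.Stm

/-!
# Small scale
-/

set_option autoImplicit false

namespace Pool.Agent.Y457.SF

open Finset Pool.Agent.Y859.SF

/-- the analytic facts -/
theorem ana (κ : ℝ) (hκ : 0 < κ) (hκ1 : κ ≤ 1 / 100) : ∃ N₀ : ℕ, ∀ N : ℕ, N₀ ≤ N → 1 ≤ N ∧
    13 * (N : ℝ) < ((N : ℝ) ^ (1 / 2 + κ)) ^ 2 ∧
    2 * (1 + Real.log (2 * N) ^ 3) < (N : ℝ) ^ κ := by
  set C : ℝ := 2 + 4 * (6 / κ) ^ 3 with hC
  have hC2 : 2 ≤ C := by
    have : 0 < (6 / κ) ^ 3 := by positivity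
    linarith
  have h1 : Filter.Tendsto (fun N : ℕ => (N : ℝ) ^ (κ / 2)) Filter.atTop Filter.atTop :=
    (tendsto_rpow_atTop (by linarith : 0 < κ / 2)).comp tendsto_natCast_atTop_atTop
  obtain ⟨N₀, hN₀⟩ := Filter.eventually_atTop.1 (h1.eventually (Filter.eventually_gt_atTop C))
  refine ⟨max N₀ 1, fun N hN => ?_⟩
  have hN1 : 1 ≤ N := le_trans (le_max_right _ _) hN
  have hNr : (1 : ℝ) ≤ N := by exact_mod_cast hN1
  have hN0 : (0 : ℝ) < N := by linarith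
  have hb : C < (N : ℝ) ^ (κ / 2) := hN₀ N (le_trans (le_max_left _ _) hN)
  set u : ℝ := (N : ℝ) ^ (κ / 2) with hu
  have hκu : (N : ℝ) ^ κ = u * u := by
    rw [hu, ← Real.rpow_add hN0]
    congr 1
    ring
  refine ⟨hN1, ?_, ?_⟩
  · have e1 : ((N : ℝ) ^ (1 / 2 + κ)) ^ 2 = N * (u * u) ^ 2 := by
      rw [← hκu, Real.rpow_add hN0, mul_pow]
      congr 1
      rw [← Real.rpow_natCast, ← Real.rpow_mul hN0.le]
      norm_num
    rw [e1, mul_comm]
    refine mul_lt_mul_of_pos_left ?_ hN0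
    have h2 : (2 : ℝ) < u := by linarith
    nlinarith [mul_pos (by linarith : (0:ℝ) < u) (by linarith : (0:ℝ) < u), mul_self_nonneg (u * u - 4)]
  · have hlog : Real.log (2 * N) ≤ (2 * (N : ℝ)) ^ (κ / 6) / (κ / 6) :=
      Real.log_le_rpow_div (by positivity) (by linarith)
    have hlog0 : 0 ≤ Real.log (2 * N) := Real.log_nonneg (by linarith)
    have h3 : Real.log (2 * N) ^ 3 ≤ ((2 * (N : ℝ)) ^ (κ / 6) / (κ / 6)) ^ 3 :=
      pow_le_pow_left₀ hlog0 hlog 3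
    have h4 : ((2 * (N : ℝ)) ^ (κ / 6) / (κ / 6)) ^ 3 = (2 : ℝ) ^ (κ / 2) * u * (6 / κ) ^ 3 := by
      rw [div_pow, ← Real.rpow_natCast, ← Real.rpow_mul (by positivity),
        Real.mul_rpow (by norm_num) hN0.le]
      have e2 : κ / 6 * ((3 : ℕ) : ℝ) = κ / 2 := by
        push_cast
        ring
      rw [e2, ← hu]
      field_simp
    have h5 : (2 : ℝ) ^ (κ / 2) ≤ 2 := by
      calc (2 : ℝ) ^ (κ / 2) ≤ (2 : ℝ) ^ (1 : ℝ) :=
            Real.rpow_le_rpow_of_exponent_le (by norm_num) (by linarith)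
        _ = 2 := Real.rpow_one 2
    have hu0 : 0 < u := by linarith
    have hκ3 : 0 < (6 / κ) ^ 3 := by positivity
    have h6 : (2 : ℝ) ^ (κ / 2) * u * (6 / κ) ^ 3 ≤ 2 * u * (6 / κ) ^ 3 := by
      have := mul_le_mul_of_nonneg_right h5 (mul_pos hu0 hκ3).le
      nlinarith
    rw [hκu]
    have h7 : 2 * (1 + Real.log (2 * N) ^ 3) ≤ 2 + 4 * (6 / κ) ^ 3 * u := by
      nlinarith
    have h8 : 2 + 4 * (6 / κ) ^ 3 * u ≤ C * u := by
      rw [hC]
      nlinarith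
    have h9 : C * u < u * u := mul_lt_mul_of_pos_right hb hu0
    linarith

theorem t_3A (h1 : S_SMA) (h2 : S_PP) (h3 : S_BIG) (h4 : S_WIN) (h5 : S_S2) : S_3A := by
  classical
  intro ε hε
  have hε' : 0 < ε / 100 := by linarith
  obtain ⟨κ, hκ, hκ1, hJ⟩ := h1 (ε / 100) (1 / 1000) hε' (by norm_num)
  obtain ⟨J, hJ1, N₁, hN₁⟩ := hJ 1000
  obtain ⟨N₂, hN₂⟩ := h2 (ε / 100) (1 / 1000) hε' (by norm_num)
  obtain ⟨N₃, hN₃⟩ := h3 (1 / 1000) (by norm_num)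
  obtain ⟨m₀, hm₀⟩ := h5
  obtain ⟨N₄, hN₄⟩ := ana κ hκ hκ1
  refine ⟨κ, hκ, hκ1, 6 * J + 20, max (max (max N₁ N₂) (max N₃ m₀)) (max N₄ (100 * (J + 2))),
    fun N hN => ?_⟩
  have hNa : N₁ ≤ N := le_trans (le_trans (le_max_left _ _) (le_trans (le_max_left _ _) (le_max_left _ _))) hN
  have hNb : N₂ ≤ N := le_trans (le_trans (le_max_right _ _) (le_trans (le_max_left _ _) (le_max_left _ _))) hN
  have hNc : N₃ ≤ N := le_trans (le_trans (le_max_left _ _) (le_trans (le_max_right _ _) (le_max_left _ _))) hN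
  have hNd : m₀ ≤ N := le_trans (le_trans (le_max_right _ _) (le_trans (le_max_right _ _) (le_max_left _ _))) hN
  have hNe : N₄ ≤ N := le_trans (le_trans (le_max_left _ _) (le_max_right _ _)) hN
  have hNf : 100 * (J + 2) ≤ N := le_trans (le_trans (le_max_right _ _) (le_max_right _ _)) hN
  obtain ⟨hN1, hz2, hlg⟩ := hN₄ N hNe
  obtain ⟨B1, hB1, hB1'⟩ := hN₁ N hNa 1 (by norm_num)
  obtain ⟨B5, hB5, hB5'⟩ := hN₁ N hNa 5 (by norm_num)
  obtain ⟨P1, hP1, hP1'⟩ := hN₂ N hNb J (by omega) (by omega) 1 (by norm_num) (by norm_num)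
  obtain ⟨P5, hP5, hP5'⟩ := hN₂ N hNb J (by omega) (by omega) 5 (by norm_num) (by norm_num)
  set Bad : Finset ℕ := B1 ∪ B5 ∪ (P1 ∪ P5) with hBad
  have hBadc : (Bad.card : ℝ) ≤ 4 * (ε / 100) * N := by
    have e1 : Bad.card ≤ B1.card + B5.card + (P1.card + P5.card) := by
      rw [hBad]
      refine le_trans (Finset.card_union_le _ _) ?_
      exact Nat.add_le_add (Finset.card_union_le _ _) (Finset.card_union_le _ _)
    have e2 : (Bad.card : ℝ) ≤ B1.card + B5.card + (P1.card + P5.card) := by exact_mod_cast e1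
    linarith
  refine ⟨Bad.biUnion fun M => Ico (6 * (M + 1 + J)) (6 * (M + 1 + J) + 6), ?_, ?_⟩
  · have e1 : (Bad.biUnion fun M => Ico (6 * (M + 1 + J)) (6 * (M + 1 + J) + 6)).card ≤
        ∑ M ∈ Bad, 6 := by
      refine le_trans Finset.card_biUnion_le ?_
      refine Finset.sum_le_sum fun M _ => ?_
      rw [Nat.card_Ico]
      omega
    rw [Finset.sum_const, smul_eq_mul] at e1
    have e2 : ((Bad.biUnion fun M => Ico (6 * (M + 1 + J)) (6 * (M + 1 + J) + 6)).card : ℝ) ≤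
        (Bad.card : ℝ) * 6 := by exact_mod_cast e1
    have hN0 : (0 : ℝ) ≤ N := Nat.cast_nonneg _
    nlinarith [mul_nonneg hε.le hN0]
  · rintro m hNm hm2 ⟨b, y, y', hRep, hh, ht⟩
    by_contra hmem
    set M := m / 6 - 1 - J with hM
    have hMJ : M + 1 + J = m / 6 := by omega
    have hMB : M ∉ Bad := by
      intro hMB
      apply hmem
      rw [Finset.mem_biUnion]
      refine ⟨M, hMB, ?_⟩
      rw [Finset.mem_Ico, hMJ]
      omega
    rw [hBad, Finset.mem_union, Finset.mem_union, Finset.mem_union] at hMB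
    push Not at hMB
    obtain ⟨⟨q1, q5⟩, q1', q5'⟩ := hMB
    have hMN : M < N := by omega
    have hMJN : M + J ≤ N := by omega
    have hbM : b ≤ 6 * M := by omega
    have hMm : 6 * M + 6 * J + 6 ≤ m := by omega
    have hM20 : (N : ℝ) / 20 ≤ M := by
      have : N ≤ 20 * M := by omega
      have h' : (N : ℝ) ≤ 20 * M := by exact_mod_cast this
      linarith
    have hNr : (1 : ℝ) ≤ N := by exact_mod_cast hN1
    have hN0 : (0 : ℝ) < N := by linarith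
    set z : ℝ := (N : ℝ) ^ (1 / 2 + κ) with hz
    have hz0 : 0 < z := Real.rpow_pos_of_pos hN0 _
    have hmr : (m : ℝ) ≤ 2 * N := by exact_mod_cast hm2
    have hmN : (N : ℝ) < m := by exact_mod_cast hNm
    have hm0 : (0 : ℝ) < m := by linarith
    have hmz : (m : ℝ) < z ^ 2 := by linarith
    have hzκ : z = (N : ℝ) ^ (1 / 2 : ℝ) * (N : ℝ) ^ κ := by
      rw [hz, Real.rpow_add hN0]
    have hκ0 : 0 < (N : ℝ) ^ κ := Real.rpow_pos_of_pos hN0 _
    have hhalf : (N : ℝ) ^ κ ≤ (N : ℝ) ^ (1 / 2 : ℝ) :=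
      Real.rpow_le_rpow_of_exponent_le hNr (by linarith)
    have hhalf1 : 1 ≤ (N : ℝ) ^ (1 / 2 : ℝ) := Real.one_le_rpow hNr (by norm_num)
    have htz : ((m - b : ℕ) : ℝ) ≤ z := by
      rw [hzκ]
      nlinarith
    have ht0 : (0 : ℝ) ≤ ((m - b : ℕ) : ℝ) := Nat.cast_nonneg _
    have hlogm : Real.log m ≤ Real.log (2 * N) := Real.log_le_log hm0 hmr
    have hlogm0 : 0 ≤ Real.log m := Real.log_nonneg (by linarith)
    have hlog3 : Real.log m ^ 3 ≤ Real.log (2 * N) ^ 3 := pow_le_pow_left₀ hlogm0 hlogm 3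
    have hlog30 : 0 ≤ Real.log m ^ 3 := by positivity
    have hs : ((y - y' : ℕ) : ℝ) ≤ (N : ℝ) ^ κ * Real.log (2 * N) ^ 3 := by
      refine le_trans (hm₀ m (by omega) b y y' hRep) ?_
      exact mul_le_mul ht hlog3 hlog30 hκ0.le
    have hs0 : (0 : ℝ) ≤ ((y - y' : ℕ) : ℝ) := Nat.cast_nonneg _
    have hL0 : 0 ≤ Real.log (2 * N) ^ 3 := le_trans hlog30 hlog3
    have hsz : ((y - y' : ℕ) : ℝ) ≤ z := by
      rw [hzκ]
      have : Real.log (2 * N) ^ 3 ≤ (N : ℝ) ^ (1 / 2 : ℝ) := by linarith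
      nlinarith
    have hb1 := hN₃ N hNc 1 J M (Or.inl rfl) (by omega) hM20 hMJN z (1 / 2 + 1 / 1000)
      (by norm_num) (by norm_num) hz0 hz2 (hB1' M hMN q1) (hP1' M hMN q1')
    have hb5 := hN₃ N hNc 5 J M (Or.inr rfl) (by omega) hM20 hMJN z (1 / 2 + 1 / 1000)
      (by norm_num) (by norm_num) hz0 hz2 (hB5' M hMN q5) (hP5' M hMN q5')
    have hw := (h4 m b y y' J M z _ hRep hz0 hmz htz hsz hbM hMm rfl).2 ?_
    · have hJr : (1000 : ℝ) ≤ J := by exact_mod_cast hJ1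
      linarith
    · have e1 : ((m : ℝ) / z) ^ 2 * ((((m - b : ℕ) : ℝ) + ((y - y' : ℕ) : ℝ)) / m) =
          m * (((m - b : ℕ) : ℝ) + ((y - y' : ℕ) : ℝ)) / z ^ 2 := by
        field_simp
      rw [e1, div_lt_one (by positivity)]
      have e2 : ((m - b : ℕ) : ℝ) + ((y - y' : ℕ) : ℝ) ≤ (N : ℝ) ^ κ * (1 + Real.log (2 * N) ^ 3) := by
        linarith
      have e3 : z ^ 2 = N * ((N : ℝ) ^ κ * (N : ℝ) ^ κ) := by
        rw [hzκ, mul_pow]
        congr 1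
        · rw [← Real.rpow_natCast, ← Real.rpow_mul hN0.le]
          norm_num
        · ring
      rw [e3]
      have e4 : (0 : ℝ) ≤ ((m - b : ℕ) : ℝ) + ((y - y' : ℕ) : ℝ) := add_nonneg ht0 hs0
      have e5 : (0 : ℝ) ≤ 2 * (N : ℝ) := by linarith
      have e6 : (m : ℝ) * (((m - b : ℕ) : ℝ) + ((y - y' : ℕ) : ℝ)) ≤
          2 * (N : ℝ) * ((N : ℝ) ^ κ * (1 + Real.log (2 * N) ^ 3)) :=
        mul_le_mul hmr e2 e4 e5
      calc (m : ℝ) * (((m - b : ℕ) : ℝ) + ((y - y' : ℕ) : ℝ))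
          ≤ 2 * (N : ℝ) * ((N : ℝ) ^ κ * (1 + Real.log (2 * N) ^ 3)) := e6
        _ = N * ((N : ℝ) ^ κ * (2 * (1 + Real.log (2 * N) ^ 3))) := by ring
        _ < N * ((N : ℝ) ^ κ * (N : ℝ) ^ κ) :=
            mul_lt_mul_of_pos_left (mul_lt_mul_of_pos_left hlg hκ0) hN0

end Pool.Agent.Y457.SF
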